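import Pool.Agent.MP_c1dca2_ag.GE.R10

/-!
# Grothendieck's section conjecture over all extensions (of degree outside a semigroup) for 100% of
the twists of every curve with an automorphism of prime order

Let `X` be a smooth projective geometrically connected curve over a number field `k₀` and
`C ⊆ Aut (X)` a `k₀`-group scheme of prime order `ℓ` (generated by an automorphism of order `ℓ` over
`k₀^alg`). There is a cyclic extension `k / k₀` of degree dividing `ℓ - 1` with `C ≅ μ_ℓ` over `k`;
over `k₀`, `C` is `μ_ℓ` twisted by a character `ψ : Gal (k / k₀) → 𝔽_ℓ^*`. Let `K₁` be the function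
field of `X / C` over `k`. By Kummer theory, `k(X) = K₁(y)`, `y ^ ℓ = h`, and the twist `X_T` of `X`
by a `C`-torsor `T` has over `k` the function field `K₁(y)`, `y ^ ℓ = c h`, where
`c ∈ k^* / (k^*)^ℓ` is the class of `T`. The classes of all `C`-torsors over `k₀` are the
`c(a) = ∏_σ σ(a)^(n σ)`, `a ∈ 𝓞 k`, for exponents `n σ` which are `ψ(σ)` modulo `ℓ`, `n 1 = 1`.

The branch points (`Branch`) are the fixed points of `C` in `X(k₀^alg)`. A degree `d` is
`Admissible` if for some `s ∈ Gal (k₀^alg / k)` it is not a sum of terms which are `ℓ` or the lengths
of orbits of `s` on the fixed points. E.g. if `C` has no fixed points, `d` is admissible if and only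
if it is not divisible by `ℓ`; `1` is admissible if and only if some `s` moves all fixed points, in
particular if they are all conjugate over `k`, and not rational (by Jordan's theorem).

Then for 100% of the `a ∈ 𝓞 k`, i.e. for 100% of all twists of `X` by `C`-torsors, the following
holds for all finite extensions `k' / k₀` at once for which the degree of `k' k` over `k` is
admissible: the twisted curve `X_T` over `k'` and every curve over `k'` which has over `k' k` a
nonconstant map to it have no section of `π₁ → Gal (k₀^alg / k')`; in particular they have no
rational point, and the section conjecture holds for them. If the genus of `X` is at least `2`, this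
is the question for the curves `X_T` over `k'`; curves `X` of genus `1`, and quotients `X / C` of any
genus, are included. Here 100% (of the parameters `a`) means that the proportion of the exceptions in
a box of `𝓞 k` tends to `0` if its sides tend to infinity, uniformly in the position of the box
(upper Banach density zero). If `ℓ = 2` and there are exactly two fixed points, we assume that
`X / C` has a connected unramified double cover over `k₀^alg` (`UnrCover`: its genus is not `0`; if
it is `0`, the twists are conics).

The condition on the degree is natural: over an extension of degree `ℓ` of `k` the twist becomes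
trivial, and a fixed point is rational over the extension of `k` generated by it.

The reason is a local theorem: let `w` be a prime of an extension `E` of `k` whose ramification index
over `k` is not divisible by `ℓ`, at which Frobenius moves all fixed points, and which is above a
prime of `k` outside of a finite set which depends only on `X`. If `c` has at `w` a valuation not
divisible by `ℓ`, no curve over `E` with a nonconstant map to the twist by `c` has a section.

The theorem is for all function fields `K₁` over `k` in which `k` is algebraically closed, all
`h ∈ K₁`, and all fields `K₀` over `k'` such that the compositum `K` of `K₀` and `k` contains `K₁`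
and a root of `y ^ ℓ = c(a) h`. For `k' = k₀` the degree is `1`. Over `k = k₀` it is about all twists
`y ^ ℓ = a h` (`n = 1`) of every curve which is a `μ_ℓ`-cover of another curve.
-/

set_option autoImplicit false

open NumberField GTS

namespace Pool.Agent.Results.MP_c1dca2_ag.AllTwistsAllExtensions

theorem result (k₀ k : Type) [Field k₀] [NumberField k₀] [Field k] [NumberField k] [Algebra k₀ k]
    (K₁ : Type) [Field K₁] [Algebra k K₁] (hK₁ : IsRegularFunctionField k K₁)
    (ℓ : ℕ) (hℓ : ℓ.Prime) (h : K₁) (h0 : h ≠ 0)
    (h2 : ¬ (ℓ = 2 ∧ (Branch k K₁ ℓ h).ncard = 2) ∨ UnrCover k K₁ ℓ)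
    (n : (k ≃ₐ[k₀] k) → ℕ) (hn : ¬ ℓ ∣ n 1)
    (ι : Type) [Fintype ι] (b : Module.Basis ι ℤ (𝓞 k)) (ε : ℝ) (hε : 0 < ε) :
    ∃ M : ℕ, ∀ (u : ι → ℤ) (N : ι → ℕ), (∀ i, M ≤ N i) →
      (Nat.card {z : ι → ℤ // (∀ i, u i ≤ z i ∧ z i < u i + N i) ∧
        ¬ NoSectionExtensions k₀ k K₁ ℓ h (param n ((∑ i, z i • b i : 𝓞 k) : k))} : ℝ) ≤
          ε * ∏ i, (N i : ℝ) :=
  GT.main_ext hK₁ hℓ h0 h2 n hn b ε hε

end Pool.Agent.Results.MP_c1dca2_ag.AllTwistsAllExtensions
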