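import Pool.Agent.MP_c1dca2_ag.SC7.F

/-!
# Grothendieck's section conjecture for 100% of the everywhere locally soluble quadratic twists of a
hyperelliptic curve

Let `k` be a number field and `f ∈ k[X]` separable of even degree `≥ 6` without a root in `k`, i.e.
`y² = f(x)` is a hyperelliptic curve of genus `≥ 2` without rational Weierstrass point. If `f` has an
irreducible factor of degree two, we suppose that it also has an irreducible factor of odd degree.
Then 100% of the `c ∈ 𝓞 k` (ordered by the coordinates with respect to any `ℤ`-basis of `𝓞 k`) **for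
which `y² = c f(x)` has points in all completions of `k`** are such that `y² = c f(x)` has no section of
`π₁ → Gal(k^alg / k)`; in particular it has no rational point, and the section conjecture holds for it
and for every curve over it. The number of the exceptional `c` in `[-N, N]^n` is smaller than the
number of all `c` for which the curve is everywhere locally soluble by a power of `log N`. The latter
number is at least a constant times `N^n / log N`.
-/

set_option autoImplicit false

open NumberField Polynomial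

namespace Pool.Agent.Results.MP_c1dca2_ag.LocallySolubleTwists

private theorem aux {k F : Type} [Field k] [Field F] (φ : k →+* F) (f : k[X]) :
    φ (f.eval 0) ^ 2 = eval 0 ((C (f.eval 0) * f).map φ) := by
  rw [Polynomial.map_mul, Polynomial.map_C, eval_mul, eval_C, ← coeff_zero_eq_eval_zero,
    ← coeff_zero_eq_eval_zero, coeff_map, sq]

theorem result (k : Type) [Field k] [NumberField k] (f : k[X]) (hsep : f.Separable)
    (heven : Even f.natDegree) (h6 : 6 ≤ f.natDegree) (hroot : ∀ a : k, f.eval a ≠ 0)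
    (hquad : (∃ g : k[X], Irreducible g ∧ g ∣ f ∧ g.natDegree = 2) →
      ∃ g : k[X], Irreducible g ∧ g ∣ f ∧ Odd g.natDegree)
    (ι : Type) [Fintype ι] (b : Module.Basis ι ℤ (𝓞 k)) :
    (∃ δ A : ℝ, 0 < δ ∧ ∀ N : ℕ, 2 ≤ N →
      (Nat.card {c : ι → ℤ // (∀ i, |c i| ≤ N) ∧ c ≠ 0 ∧
        SEC.LocallySoluble k (C ((∑ i, c i • b i : 𝓞 k) : k) * f) ∧
        ¬ SCJ.NoSection k (C ((∑ i, c i • b i : 𝓞 k) : k) * f)} : ℝ) ≤
      A * Real.log N ^ (-δ) *
      (Nat.card {c : ι → ℤ // (∀ i, |c i| ≤ N) ∧ c ≠ 0 ∧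
        SEC.LocallySoluble k (C ((∑ i, c i • b i : 𝓞 k) : k) * f)} : ℝ)) ∧
    ∃ (a : ℝ) (N₀ : ℕ), 0 < a ∧
      ∀ N : ℕ, N₀ ≤ N → a * (N : ℝ) ^ (Fintype.card ι) / Real.log N ≤
        (Nat.card {c : ι → ℤ // (∀ i, |c i| ≤ N) ∧ c ≠ 0 ∧
          SEC.LocallySoluble k (C ((∑ i, c i • b i : 𝓞 k) : k) * f)} : ℝ) := by
  obtain ⟨h1, h2⟩ := SC7.main f hsep heven h6 hroot hquad b
  exact ⟨h1, h2 ⟨f.eval 0, hroot 0, fun v => ⟨0, algebraMap k _ (f.eval 0), aux _ f⟩,
    fun v => ⟨0, algebraMap k _ (f.eval 0), aux _ f⟩⟩⟩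

end Pool.Agent.Results.MP_c1dca2_ag.LocallySolubleTwists
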