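import Pool.Agent.MP_c1dca2_ag.SUE.V11

/-!
# No sections over all extensions, except for some degrees, for 100% of all superelliptic curves

Let `k ⊆ K ⊆ L` be number fields. We consider the superelliptic curves `y^m = F(x)` over all finite
extensions `k'` of `K` at once, where `F ∈ k'[X]` has the leading coefficient `c(a)` (up to an
`ℓ`-th power) and has at least three roots of multiplicity not divisible by the prime `ℓ ∣ m`, all
of them roots of `G(a, x) f_1(x) ⋯ f_r(x)`. Here `a ∈ 𝓞 k` and the monic polynomials `f_i ∈ 𝓞 k[X]`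
of degree `n_i ≥ 2` vary over all points of a box (with respect to a `ℤ`-basis of `𝓞 k`),
`G ∈ K[t][x]` and `c ∈ K[t]` are fixed, `c ≠ 0`, and for some `t₀ ∈ L` the polynomial `G(t₀, x)` is
separable, of the degree of `G` in `x`.

As the sides of the box tend to infinity, 100% of the points have the following property for all
`σ ∈ Gal(G(t₀, x) / L)`. Let `k'` be a finite extension of `K` and `ℓ` a prime which does not divide
the multiplicity of `t₀` as a root of `c`. Suppose that the degree `[k' : K]` is not in the numerical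
semigroup generated by `ℓ`, the degrees `n_i` and the lengths of the orbits of `σ` on the roots of
`G(t₀, x)`. Then for all `m` divisible by `ℓ` and all `F` as above the curve `y^m = F(x)` and every
curve over `k'` with a nonconstant map to it has no section of `π₁ → Gal(k^alg / k')`; in
particular it has no rational point, and the section conjecture holds for it. This is uniform in the
position of the box (upper Banach density zero).

* `G = 1`, `c = t`, `k = K = L`: 100% of all superelliptic curves `y^m = a f_1(x)^(e_1) ⋯ f_r(x)^(e_r)`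
  with `ℓ ∣ m`, `ℓ ∣ e_1 n_1 + ⋯ + e_r n_r`; they have effective divisors of degree `ℓ` and `n_i`, so
  the condition on the degree of `k'` is sharp. For `r = 1` it means that `ℓ` does not divide
  `[k' : k]`. For `k' = k` the condition is always satisfied.
* `r = 0`: 100% of the curves of a family `y^m = F(t, x)` with one parameter.
-/

set_option autoImplicit false

open NumberField Polynomial

namespace Pool.Agent.Results.MP_c1dca2_ag.SuperellipticAllExtensions

/-- The conclusion for one point `(a, f_1, …, f_r)`: `g = G(a, x) f_1 ⋯ f_r`, `c = c(a)`, `μ` is the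
multiplicity of `t₀` and `Per` is the set of the lengths of the orbits of `σ`. -/
def AllSec (K : Type) [Field K] {r : Type} (n : r → ℕ) (Per : Set ℕ) (μ : ℕ) (g : K[X]) (c : K) :
    Prop :=
  ∀ (k' : Type) [Field k'] [Algebra K k'] [FiniteDimensional K k'] (ℓ : ℕ), ℓ.Prime → ¬ ℓ ∣ μ →
    Module.finrank K k' ∉ AddSubmonoid.closure (insert ℓ (Set.range n ∪ Per)) →
    ∀ (m : ℕ) (F : k'[X]) (b : k'), ℓ ∣ m → F ≠ 0 → SUE.AdmR ℓ F (g.map (algebraMap K k')) →
      F.leadingCoeff = algebraMap K k' c * b ^ ℓ → SUP.NoSec k' m F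

theorem result (k K L : Type) [Field k] [NumberField k] [Field K] [NumberField K] [Field L]
    [NumberField L] [Algebra k K] [Algebra K L] [Algebra k L] [IsScalarTower k K L]
    (ι : Type) [Fintype ι] (b : Module.Basis ι ℤ (𝓞 k)) (r : Type) [Fintype r] (n : r → ℕ)
    (hn : ∀ i, 2 ≤ n i) (G : K[X][X]) (c : K[X]) (hc : c ≠ 0) (t₀ : L)
    (hdeg : (SUE.ev G t₀).natDegree = G.natDegree) (hsep : (SUE.ev G t₀).Separable)
    (ε : ℝ) (hε : 0 < ε) :
    ∃ M : ℕ, ∀ (u : SUU.Idx n ι → ℤ) (N : SUU.Idx n ι → ℕ), (∀ x, M ≤ N x) →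
      (Nat.card {z : SUU.Idx n ι → ℤ // (∀ x, u x ≤ z x ∧ z x < u x + N x) ∧
        ¬ ∀ σ : (SUE.ev G t₀).SplittingField ≃ₐ[L] (SUE.ev G t₀).SplittingField,
          AllSec K n (SUE.periods (SUE.ev G t₀) σ) (rootMultiplicity t₀ (c.map (algebraMap K L)))
            (SUE.ev G (algebraMap k K (SUU.aOf b z : k)) *
              ∏ i, SUU.mon (n i) (fun j => algebraMap k K (SUU.cOf b z i j : k)))
            (c.eval (algebraMap k K (SUU.aOf b z : k)))} : ℝ) ≤
        ε * ∏ x, (N x : ℝ) := by
  obtain ⟨M, hM⟩ := SUE.main K L b n hn (s := Empty) G c hc (fun j => j.elim) t₀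
    (fun j => j.elim) hdeg hsep ε hε
  refine ⟨M, fun u N hN => le_trans ?_ (hM u N hN)⟩
  have hfin := SUE.box_finite u N
  have hsub : {z : SUU.Idx n ι → ℤ | (∀ x, u x ≤ z x ∧ z x < u x + N x) ∧
        ¬ ∀ σ : (SUE.ev G t₀).SplittingField ≃ₐ[L] (SUE.ev G t₀).SplittingField,
          AllSec K n (SUE.periods (SUE.ev G t₀) σ) (rootMultiplicity t₀ (c.map (algebraMap K L)))
            (SUE.ev G (algebraMap k K (SUU.aOf b z : k)) *
              ∏ i, SUU.mon (n i) (fun j => algebraMap k K (SUU.cOf b z i j : k)))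
            (c.eval (algebraMap k K (SUU.aOf b z : k)))} ⊆
      {z : SUU.Idx n ι → ℤ | (∀ x, u x ≤ z x ∧ z x < u x + N x) ∧
        ¬ ∀ σ : (SUE.ev G t₀).SplittingField ≃ₐ[L] (SUE.ev G t₀).SplittingField,
          SUE.AllExt K n (SUE.periods (SUE.ev G t₀) σ)
            (rootMultiplicity t₀ (c.map (algebraMap K L)))
            (SUE.ev G (algebraMap k K (SUU.aOf b z : k)) *
              ∏ i, SUU.mon (n i) (fun j => algebraMap k K (SUU.cOf b z i j : k)))
            (SUE.Lam (c.eval (algebraMap k K (SUU.aOf b z : k)))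
              (fun j : Empty => (j.elim : K[X]).eval (algebraMap k K (SUU.aOf b z : k))))} := by
    rintro z ⟨hz1, hz2⟩
    refine ⟨hz1, fun hcon => hz2 fun σ => ?_⟩
    intro k' _ _ _ ℓ hℓ hμ hd m F b' hm hF hadm hlc
    refine hcon σ ℓ hℓ hμ k' hd m F hm hF hadm ⟨_, ⟨fun _ => 0, rfl⟩, b', ?_⟩
    simpa using hlc
  exact_mod_cast Set.ncard_le_ncard hsub (hfin.subset fun z hz => hz.1)

end Pool.Agent.Results.MP_c1dca2_ag.SuperellipticAllExtensions
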