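import Pool.Agent.MP_c1dca2_ag.SC8.G4

/-!
# Grothendieck's section conjecture modulo 2 for 100% of the quadratic twists of every hyperelliptic
curve with at most one rational Weierstrass point

Let `k` be a number field and `f ∈ k[X]` separable of degree `≥ 5`, such that the hyperelliptic
curve `y² = f(x)` has at most one rational Weierstrass point (at most one root in `k` if the degree
is even, no root in `k` if it is odd; then the Weierstrass point is the point at infinity). Then,
for 100% of the `c ∈ 𝓞 k` (ordered by the coordinates with respect to any `ℤ`-basis of `𝓞 k`), all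
sections of `π₁ → Gal(k^alg / k)` for the curve `y² = c f(x)` are congruent modulo `2` to the
section of the rational Weierstrass point: they act, up to conjugation, in the same way on the
maximal elementary abelian 2-cover of the geometric curve. If there is no rational Weierstrass
point, there is no section and no rational point at all, the section conjecture holds for
`y² = c f(x)` and for all curves over it, and the number of the exceptional `c` with coordinates in
`[-N, N]` is smaller than the number of all `c` by a power of `log N`.
-/

set_option autoImplicit false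

open NumberField Polynomial Filter Topology

namespace Pool.Agent.Results.MP_c1dca2_ag.TwistSectionsModTwo

theorem result (k : Type) [Field k] [NumberField k] (f : k[X]) (hsep : f.Separable)
    (h5 : 5 ≤ f.natDegree) (hr : f.roots.card + f.natDegree % 2 ≤ 1) (ι : Type) [Fintype ι]
    (b : Module.Basis ι ℤ (𝓞 k)) :
    ∃ ε : ℕ → ℝ, Tendsto ε atTop (𝓝 0) ∧
      (SCJ.NoRatW f → ∃ δ A : ℝ, 0 < δ ∧ ∀ N : ℕ, 2 ≤ N → ε N ≤ A / Real.log N ^ δ) ∧
      ∀ N : ℕ, (Nat.card {c : ι → ℤ // (∀ i, |c i| ≤ N) ∧
        ¬ SCJ.SectModTwo k (C ((∑ i, c i • b i : 𝓞 k) : k) * f)} : ℝ) ≤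
          ε N * (2 * N + 1) ^ (Fintype.card ι) :=
  SC8.main' f hsep h5 hr b

end Pool.Agent.Results.MP_c1dca2_ag.TwistSectionsModTwo
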